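import Pool.Agent.Y520.AS.Stm
import Pool.Agent.H947R3.Grad2
import Pool.Agent.H947R3.Hess
import Pool.Agent.H947R3.Conv

/-!
Project AS (MP_32f00d_an): AS-GRAD, interior gradient estimate with advection.

Let `S` be the maximum of `(R - |y - x0|) ∑ |∂_i w|` on the cube, attained at `z`, and apply the
gradient estimate for the Laplacian in a small cube about `z`.
-/

set_option autoImplicit false

open MeasureTheory Set Filter Topology Laplacian InnerProductSpace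

namespace Pool.Agent.Y401.AS

open Pool.Agent.H947R3 Pool.Agent.Y520.AR Pool.Agent.Y520.AS

variable {n : ℕ}

/-- distance in the maximum norm -/
noncomputable def nr (x0 y : E n) : ℝ := ‖(fun j => y j - x0 j : Fin n → ℝ)‖

lemma nr_le {x0 y : E n} {r : ℝ} (hr : 0 ≤ r) : nr x0 y ≤ r ↔ y ∈ QQ x0 r := by
  unfold nr QQ
  rw [pi_norm_le_iff_of_nonneg hr]
  rfl

lemma nr_nonneg (x0 y : E n) : 0 ≤ nr x0 y := norm_nonneg _

lemma continuous_nr (x0 : E n) : Continuous (nr x0) := by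
  unfold nr
  fun_prop

/-- the sum of the absolute values of the partial derivatives -/
noncomputable def PP1 (w : E n → ℝ) (y : E n) : ℝ := ∑ i, |pd w i y|

lemma PP1_nonneg (w : E n → ℝ) (y : E n) : 0 ≤ PP1 w y :=
  Finset.sum_nonneg fun _ _ => abs_nonneg _

lemma le_PP1 (w : E n → ℝ) (y : E n) (i : Fin n) : |pd w i y| ≤ PP1 w y :=
  Finset.single_le_sum (f := fun i => |pd w i y|) (fun _ _ => abs_nonneg _) (Finset.mem_univ i)

lemma continuousOn_PP1 {U : Set (E n)} (hU : IsOpen U) {w : E n → ℝ} (hw : ContDiffOn ℝ 2 w U) :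
    ContinuousOn (PP1 w) U :=
  continuousOn_finsetSum _ fun i _ => (continuousOn_pd hU (hw.of_le (by norm_num)) i).abs

/-- the main estimate -/
lemma key {B R : ℝ} (hB : 0 ≤ B) (hR : 0 < R) {U : Set (E n)} {w : E n → ℝ} {c : E n → E n}
    {x0 : E n} {M N θ : ℝ} (hU : IsOpen U) (hw : ContDiffOn ℝ 2 w U) (hQ : QQ x0 R ⊆ U)
    (hc : ∀ x ∈ QQ x0 R, ‖c x‖ ≤ B) (hM : ∀ x ∈ QQ x0 R, |w x| ≤ M)
    (hN : ∀ x ∈ QQ x0 R, |-(Δ w x) + fderiv ℝ w x (c x)| ≤ N)
    (hθ : 0 < θ) (hθ1 : θ ≤ 1 / 2) (hθ2 : n * ((n + 1) * B * R) * θ ≤ 1 / 2)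
    {x : E n} (hx : x ∈ QQ x0 R) :
    (R - nr x0 x) * PP1 w x ≤ 2 * (n ^ 2 * M / θ + n * N * R ^ 2) := by
  have hx0 : x0 ∈ QQ x0 R := mem_QQ_self x0 hR.le
  have hM0 : 0 ≤ M := (abs_nonneg _).trans (hM x0 hx0)
  have hN0 : 0 ≤ N := (abs_nonneg _).trans (hN x0 hx0)
  have hcont : ContinuousOn (fun y => (R - nr x0 y) * PP1 w y) (QQ x0 R) :=
    (continuous_const.sub (continuous_nr x0)).continuousOn.mul
      ((continuousOn_PP1 hU hw).mono hQ)
  obtain ⟨z, hz, hmax⟩ := (isCompact_QQ x0 R).exists_isMaxOn ⟨x0, hx0⟩ hcont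
  have hmax' : ∀ y ∈ QQ x0 R, (R - nr x0 y) * PP1 w y ≤ (R - nr x0 z) * PP1 w z :=
    fun y hy => hmax hy
  refine (hmax' x hx).trans ?_
  set S : ℝ := (R - nr x0 z) * PP1 w z with hS
  have hrhs : 0 ≤ 2 * (n ^ 2 * M / θ + n * N * R ^ 2) := by positivity
  rcases le_or_gt S 0 with hS0 | hS0
  · exact hS0.trans hrhs
  set D : ℝ := R - nr x0 z with hD
  have hzR : nr x0 z ≤ R := (nr_le hR.le).2 hz
  have hD0 : 0 < D := by
    rcases (show 0 ≤ D by rw [hD]; linarith).eq_or_lt with h | h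
    · rw [← h, zero_mul] at hS
      linarith
    · exact h
  have hDR : D ≤ R := by
    have := nr_nonneg x0 z
    rw [hD]
    linarith
  set ρ : ℝ := θ * D with hρ
  have hρ0 : 0 < ρ := by positivity
  have hρD : ρ ≤ D / 2 := by
    rw [hρ]
    nlinarith
  have hz' : z ∈ QQ x0 (nr x0 z) := (nr_le (nr_nonneg x0 z)).1 le_rfl
  have hsub : ∀ y ∈ QQ z ρ, nr x0 y ≤ nr x0 z + ρ := by
    intro y hy
    have h0 := nr_nonneg x0 z
    exact (nr_le (by linarith)).2 (QQ_trans hz' hy)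
  have hsub2 : QQ z ρ ⊆ QQ x0 R := by
    intro y hy
    refine (nr_le hR.le).1 ((hsub y hy).trans ?_)
    rw [hD] at hρD
    linarith
  have hP : ∀ y ∈ QQ z ρ, PP1 w y ≤ 2 * S / D := by
    intro y hy
    have h1 := hmax' y (hsub2 hy)
    have h2 := hsub y hy
    have h3 : D / 2 ≤ R - nr x0 y := by
      rw [hD] at hρD ⊢
      linarith
    have h4 : D / 2 * PP1 w y ≤ S :=
      (mul_le_mul_of_nonneg_right h3 (PP1_nonneg w y)).trans h1
    rw [le_div_iff₀ hD0]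
    linarith
  have hLap : ∀ y ∈ QQ z ρ, |Δ w y| ≤ N + (n + 1) * (2 * S / D) * B := by
    intro y hy
    have h1 := hN y (hsub2 hy)
    have h2 : ‖fderiv ℝ w y‖ ≤ (n + 1) * (2 * S / D) :=
      norm_fderiv_le_of_pd (by positivity) fun i => (le_PP1 w y i).trans (hP y hy)
    have h3 : |fderiv ℝ w y (c y)| ≤ (n + 1) * (2 * S / D) * B := by
      rw [← Real.norm_eq_abs]
      refine ((fderiv ℝ w y).le_opNorm (c y)).trans ?_
      exact mul_le_mul h2 (hc y (hsub2 hy)) (norm_nonneg _) (by positivity)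
    rw [abs_le] at h1 h3 ⊢
    constructor <;> linarith [h1.1, h1.2, h3.1, h3.2]
  have hg : ∀ i, |pd w i z| ≤ n * M / ρ + (N + (n + 1) * (2 * S / D) * B) * ρ / 2 := fun i =>
    grad_est hU hw hρ0 (hsub2.trans hQ) (fun y hy => hM y (hsub2 hy)) hLap i
  have hPz : PP1 w z ≤ n * (n * M / ρ + (N + (n + 1) * (2 * S / D) * B) * ρ / 2) := by
    refine (Finset.sum_le_sum fun i _ => hg i).trans ?_
    rw [Finset.sum_const, Finset.card_univ, Fintype.card_fin, nsmul_eq_mul]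
  have h5 : S ≤ D * (n * (n * M / ρ + (N + (n + 1) * (2 * S / D) * B) * ρ / 2)) := by
    rw [hS]
    exact mul_le_mul_of_nonneg_left hPz hD0.le
  have h6 : D * (n * (n * M / ρ + (N + (n + 1) * (2 * S / D) * B) * ρ / 2)) =
      n ^ 2 * M / θ + n * N * (θ * D ^ 2 / 2) + n * ((n + 1) * B * D) * θ * S := by
    rw [hρ]
    field_simp
    ring
  have hn : (0 : ℝ) ≤ n := Nat.cast_nonneg n
  have h7 : n * ((n + 1) * B * D) * θ * S ≤ 1 / 2 * S := by
    refine mul_le_mul_of_nonneg_right (le_trans ?_ hθ2) hS0.le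
    gcongr
  have h8 : n * N * (θ * D ^ 2 / 2) ≤ n * N * R ^ 2 := by
    refine mul_le_mul_of_nonneg_left ?_ (by positivity)
    have h9 : D ^ 2 ≤ R ^ 2 := pow_le_pow_left₀ hD0.le hDR 2
    have h10 : θ * D ^ 2 ≤ 1 / 2 * R ^ 2 := mul_le_mul hθ1 h9 (by positivity) (by norm_num)
    nlinarith [sq_nonneg R]
  rw [h6] at h5
  linarith

/-- **AS-GRAD** -/
theorem t_GRAD : S_GRAD := by
  intro n B R hB hR
  set K : ℝ := n * ((n + 1) * B * R) with hK
  have hK0 : 0 ≤ K := by positivity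
  set θ : ℝ := 1 / (2 + 2 * K) with hθ
  have hθ0 : 0 < θ := by positivity
  have hθ1 : θ ≤ 1 / 2 := by
    rw [hθ]
    exact one_div_le_one_div_of_le (by norm_num) (by linarith)
  have hθ2 : K * θ ≤ 1 / 2 := by
    rw [hθ, mul_one_div, div_le_iff₀ (by positivity)]
    linarith
  refine ⟨4 / R * (n ^ 2 / θ + n * R ^ 2), by positivity, ?_⟩
  intro U w c x0 M N hU hw hQ hc hM hN x hx i
  have hx0 : x0 ∈ QQ x0 R := mem_QQ_self x0 hR.le
  have hM0 : 0 ≤ M := (abs_nonneg _).trans (hM x0 hx0)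
  have hN0 : 0 ≤ N := (abs_nonneg _).trans (hN x0 hx0)
  have h1 := key hB hR hU hw hQ hc hM hN hθ0 hθ1 hθ2 (QQ_mono (by linarith) hx)
  have h2 : nr x0 x ≤ R / 2 := (nr_le (by linarith)).2 hx
  have h3 : R / 2 * PP1 w x ≤ (R - nr x0 x) * PP1 w x :=
    mul_le_mul_of_nonneg_right (by linarith) (PP1_nonneg w x)
  have h4 : PP1 w x ≤ 4 / R * (n ^ 2 * M / θ + n * N * R ^ 2) := by
    have h5 := h3.trans h1
    rw [div_mul_eq_mul_div, le_div_iff₀ hR]
    linarith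
  refine (le_PP1 w x i).trans (h4.trans ?_)
  rw [mul_assoc (4 / R)]
  refine mul_le_mul_of_nonneg_left ?_ (show (0 : ℝ) ≤ 4 / R by positivity)
  have h6 : (0 : ℝ) ≤ n ^ 2 / θ := by positivity
  have h7 : (0 : ℝ) ≤ n * R ^ 2 := by positivity
  have h8 : (n : ℝ) ^ 2 * M / θ = n ^ 2 / θ * M := by ring
  rw [h8]
  nlinarith [mul_nonneg h6 hN0, mul_nonneg h7 hM0]

end Pool.Agent.Y401.AS

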